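import Mathlib
import Pool.Agent.N843.Em
import Pool.Agent.N843.Fa

/-!
# The conjecture of Bloch and Kato for conjugate self-dual representations of `GL_2` over imaginary
# quadratic fields, of all weights: both sides, natural density

`K = ℚ(√-7) = ℚ(w)`, `w² = w - 2`. For `k > 0` let `f_k` be the newform of weight `2k` and level `49`
of the Hecke character `ψ^{2k-1}`, where `ψ` is the Hecke character over `K` of `X_0(49)`, and let
`χ_d` be the quadratic character of `ℚ(√d)`; `f_k ⊗ χ_d` is the newform of `ψ_d^{2k-1}` for the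
quadratic twist `E_d` of `X_0(49)`.

Let `D ≥ 1` be good if it is squarefree, `D ≡ 1 mod 8`, `7 ∤ D`, `E_D(ℚ)` is finite and `Ш(E_D/ℚ)` has
no element of order two. Let `D ≠ D'` be good, let `F` be the imaginary quadratic field
`ℚ(√(-7 D D'))`, and let `(d, d') = (D, D')` or `(-D, -D')`. The base changes of `f_k ⊗ χ_d` and of
`f_k ⊗ χ_{d'}` to `F` are the same representation `π` of `GL_2` over `F`, as the twist of `f_k` by
`χ_{-7}` is `f_k`. It is cuspidal (`F ≠ K`) and regular algebraic with `π^∨ = π^c |·|^(-1)`, after the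
normalization. Its `L`-function is the product of `L(f_k ⊗ χ_d, s)` and `L(f_k ⊗ χ_{d'}, s)`, with the
centre `s = k`, and its `2`-adic realization `V` is the restriction to `Gal(ℚ̄/F)` of the
representation of `Gal(ℚ̄/ℚ)` induced from the character `κ^k κ'^(1-k)` of `Gal(ℚ̄/K)`; here `κ`, `κ'`
are the characters by which `Gal(ℚ̄/K)` acts on the `2`-adic Tate module of `E_d`.

Theorem: for **all** `k > 0`, with `(d, d') = (D, D')` if `k` is odd and `(d, d') = (-D, -D')` if `k` is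
even, the `L`-function of `π` does not vanish at the centre, **and** `H¹_f(F, V) = 0`: the conjecture of
Bloch and Kato is true for `π` and `p = 2`, and both sides are `0`. The good `D` have the natural
density **exactly** `c / 2`, `c = ∏_{i ≥ 0} (1 - 2^{-(2i+1)}) = 0.4194…`, among all squarefree `D ≥ 1`
with `D ≡ 1 mod 8`, `7 ∤ D`, and in every union of residue classes modulo `m` of such numbers; so this
holds for at least the proportion `c² / 4` of the pairs of such numbers.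

The central values are not zero because of the exact power of a prime above `2` in their algebraic
parts: congruences modulo `4` and `16` between Eisenstein–Kronecker series and an induction over the
sets of the prime elements of `K` dividing `D` reduce all the `k` to `k = 1`. The density is by the
machine of helpers 973, 713, 897, 226 and 186 (`N973/ND`), extended to the residue classes by helpers
226 and 186 (`N226/DM`, `N186/DM`).
-/

set_option autoImplicit false

namespace Pool.Agent.Results.MP_7c08ba_nt.BaseChangeAllWeights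

open Pool.Agent.Results.MP_787500_nt.AllWeightsMultiquadraticX49 (QBar OK ED Chr TateModule chi
  RankZeroShaTwo K Iso)
open Pool.Agent.Results.MP_6e2fc3_nt.CMFormsAllWeights (GQ Zero)
open WeierstrassCurve Filter
open scoped Classical

/-! ### The forms and the `L`-function -/

/-- The pairs `(a, b)` such that the norm `a² + a b + 2 b²` of `a + b ω` is `l`. -/
noncomputable def elements (l : ℕ) : Finset (ℤ × ℤ) :=
  (Finset.Icc (-(2 * l : ℤ)) (2 * l) ×ˢ Finset.Icc (-(2 * l : ℤ)) (2 * l)).filter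
    fun v => v.1 ^ 2 + v.1 * v.2 + 2 * v.2 ^ 2 = l

/-- The `l`-th coefficient of `f_k`: half the sum of the `(x / √-7) x ^ (2 k - 1)` over the elements
`x = a + b ω` of norm `l`, where `ω` is mapped to `z`; the symbol `(x / √-7)` is the Legendre symbol of
`a + 4 b` modulo `7`, as `ω = 4` modulo `√-7`. -/
noncomputable def coeff (z : ℂ) (k l : ℕ) : ℂ :=
  (∑ v ∈ elements l, (jacobiSym (v.1 + 4 * v.2) 7 : ℂ) *
    ((v.1 : ℂ) + (v.2 : ℂ) * z) ^ (2 * k - 1)) / 2

/-- The value at `n > 0` of the quadratic character of `ℚ(√d)`, for odd squarefree `d` with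
`|d| ≡ 1 mod 4`: it is the Jacobi symbol `(n / |d|)`, multiplied by the nontrivial character modulo
`4` if `d < 0`. -/
def quad (d n : ℤ) : ℤ := (if d < 0 then ZMod.χ₄ (n : ZMod 4) else 1) * jacobiSym n d.natAbs

/-- `L` is an entire function, equal for `Re s > k + 1/2` to the product of the Dirichlet series of
`f_k ⊗ χ_d` and of `f_k ⊗ χ_{d'}`: it is the `L`-function of the base change `π` of `f_k ⊗ χ_d` to the
field `ℚ(√(-7 d d'))`. -/
def IsLFunction (z : ℂ) (k : ℕ) (d d' : ℤ) (L : ℂ → ℂ) : Prop := Differentiable ℂ L ∧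
  ∀ s : ℂ, (k : ℝ) + 1 / 2 < s.re → ∃ a b : ℂ,
    LSeriesHasSum (fun l => (quad d l : ℂ) * coeff z k l) s a ∧
    LSeriesHasSum (fun l => (quad d' l : ℂ) * coeff z k l) s b ∧ L s = a * b

/-- The `L`-function of the base change `π` of `f_k ⊗ χ_d` to the field `ℚ(√(-7 d d'))` is entire and
not zero at the centre `s = k`. -/
def OrderZero (k : ℕ) (d d' : ℤ) : Prop := ∀ z : ℂ, z ^ 2 = z - 2 →
  ∃ L : ℂ → ℂ, IsLFunction z k d d' L ∧ L k ≠ 0

/-! ### The conjecture of Bloch and Kato -/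

/-- `D ≥ 1` is squarefree, `D ≡ 1 mod 8`, `7 ∤ D`, `E_D(ℚ)` is finite and `Ш(E_D/ℚ)` has no element of
order two. -/
structure IsGood (D : ℕ) : Prop where
  squarefree : Squarefree D
  mod_eight : D % 8 = 1
  seven : ¬ 7 ∣ D
  rank : RankZeroShaTwo D

/-- The curve `E_d : y² = x³ - 3 d x² - 32 d² x - 64 d³`, the quadratic twist by `d` of
`X_0(49) : y² + x y = x³ - x² - 2 x - 1`. -/
def model (d : ℤ) : WeierstrassCurve ℤ := ⟨0, -3 * d, 0, -32 * d ^ 2, -64 * d ^ 3⟩

/-- The weights `2k` for the twist by `d`: `k > 0` is odd if `d > 0` and even if `d < 0`. -/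
def Weight (d k : ℤ) : Prop := 0 < k ∧ ((0 < d ∧ Odd k) ∨ (d < 0 ∧ Even k))

/-- The element `-√-7 d` of `ℤ[ω]`. -/
def tw (d : ℤ) : OK := ⟨d, -2 * d⟩

/-- The curve `E_d` is over `K` isomorphic to the elliptic curve `ED w (tw d)`, the absolute Galois
group of `K` acts on its `2`-adic Tate module by `κ`, `κ'`, and for `F = ℚ(√(-7 d d'))` and all the `k`
in `Weight d` the group `H¹_f(F, V)` is zero for the restriction `V` to the absolute Galois group of
`F` of the representation induced from `κ^k κ'^(1-k)` (see `Zero`). -/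
def SelmerZero (d d' : ℤ) : Prop := ∀ w : QBar, w ^ 2 = w - 2 →
  Iso ((model d).map (Int.castRingHom (K w))) (ED w (tw d)) ∧ (ED w (tw d)).IsElliptic ∧
  ∃ κ κ' : Chr w, TateModule (tw d) κ κ' ∧
    ∀ s : QBar, s ^ 2 = ((-7 * d * d' : ℤ) : QBar) → ∀ c₀ : GQ, c₀ w = 1 - w →
      ∀ k : ℤ, Weight d k → Zero (fun _ : Fin 1 => s) (chi κ κ' k) c₀

/-- The conjecture of Bloch and Kato for `p = 2`, both sides being `0`, for the base changes `π` to
`F = ℚ(√(-7 d d'))` of the newforms `f_k ⊗ χ_d` of the weights `2k`, for all `k > 0` that are odd if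
`d > 0` and even if `d < 0`. -/
def BlochKato (d d' : ℤ) : Prop := (∀ k : ℕ, Weight d k → OrderZero k d d') ∧ SelmerZero d d'

/-- `D = d d'` in `ℤ[ω]` with `d ≡ 1 mod ω²`, `d ≠ 1`, such that `d` is a square modulo every prime
dividing `d'`, and `-√-7 d'` is a square modulo every prime dividing `d` (`√-7 = 2 ω - 1`). -/
def Factorisation (D : ℕ) : Prop := ∃ d d' : OK, (D : OK) = d * d' ∧
  (⟨0, 1⟩ : OK) ^ 2 ∣ d - 1 ∧ d ≠ 1 ∧
  (∀ p : OK, Prime p → p ∣ d' → ∃ x : OK, p ∣ x ^ 2 - d) ∧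
  ∀ p : OK, Prime p → p ∣ d → ∃ x : OK, p ∣ x ^ 2 + (2 * (⟨0, 1⟩ : OK) - 1) * d'

/-! ### The density -/

/-- Residue classes: `56 ∣ m`, and `R` is a nonempty set of numbers less than `m`, prime to `m` and
`1` modulo `8`. -/
structure Classes (m : ℕ) (R : Finset ℕ) : Prop where
  pos : 0 < m
  dvd : 56 ∣ m
  nonempty : R.Nonempty
  mem : ∀ a ∈ R, a < m ∧ Nat.Coprime a m ∧ a % 8 = 1

/-- The number of the squarefree `1 ≤ D ≤ X`, with residue modulo `m` in `R` and the property `Q`. -/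
noncomputable def num (m : ℕ) (R : Finset ℕ) (Q : ℕ → Prop) (X : ℕ) : ℕ :=
  ((Finset.Icc 1 X).filter fun D => (Squarefree D ∧ D % m ∈ R) ∧ Q D).card

/-- The property `Q` has the natural density `θ` among the squarefree `D` of the classes. -/
def HasDensity (m : ℕ) (R : Finset ℕ) (Q : ℕ → Prop) (θ : ℝ) : Prop :=
  Tendsto (fun X : ℕ => (num m R Q X : ℝ) / (num m R (fun _ => True) X : ℝ)) atTop (nhds θ)

/-- The proportion of the pairs with the property `Q`, among the pairs of squarefree `D`, `D' ≤ X` of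
the classes. -/
noncomputable def pairs (m : ℕ) (R : Finset ℕ) (Q : ℕ → ℕ → Prop) (X : ℕ) : ℝ :=
  (((Finset.Icc 1 X ×ˢ Finset.Icc 1 X).filter fun v => ((Squarefree v.1 ∧ v.1 % m ∈ R) ∧
      (Squarefree v.2 ∧ v.2 % m ∈ R)) ∧ Q v.1 v.2).card : ℝ) /
    (num m R (fun _ => True) X : ℝ) ^ 2

/-- The constant `c = 0.4194…`. -/
noncomputable def c : ℝ := ∏' i : ℕ, (1 - (1 / 2 : ℝ) ^ (2 * i + 1))

/-! ### The proof -/

section proof

open Pool.Agent.N843.Z
open Pool.Agent.N843.A (coreLZ isoZ selZ twZ_ne)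
open Pool.Agent.N843.E (exists_tateO)
open Pool.Agent.Results.MP_787500_nt.AllWeightsMultiquadraticX49 (elliptic GalL galL_eq)
open Pool.Agent.Results.MP_6e2fc3_nt.CMFormsAllWeights (mem_GalL)

lemma fm_of {D : ℕ} (h : IsGood D) : Fm D := ⟨h.squarefree, h.mod_eight, h.seven, h.rank⟩

lemma zero_one {D : ℕ} (h : Fm D) {d : ℤ} (hd : d = D ∨ d = -(D : ℤ)) {k : ℕ} (hk : Weight d k)
    {z : ℂ} (hz : z ^ 2 = z - 2) : ∃ F : ℂ → ℂ, Differentiable ℂ F ∧
      (∀ s : ℂ, (k : ℝ) + 1 / 2 < s.re →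
        LSeriesHasSum (fun l => (quad d l : ℂ) * coeff z k l) s (F s)) ∧ F (k : ℂ) ≠ 0 := by
  have h1 : 1 ≤ k := by
    have := hk.1
    omega
  obtain ⟨F, h2, h3, h4⟩ := coreLZ h hz h1
  have h0 : 0 < D := Nat.pos_of_ne_zero h.sq.ne_zero
  have e : ((-1 : ℤ) ^ (k + 1) * D) = d := by
    rcases hk.2 with ⟨h5, h6⟩ | ⟨h5, h6⟩
    · have h7 : Odd k := by exact_mod_cast h6
      rw [Even.neg_one_pow h7.add_one]
      omega
    · have h7 : Even k := by exact_mod_cast h6
      rw [Odd.neg_one_pow h7.add_one]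
      omega
  rw [e] at h3
  exact ⟨F, h2, fun s hs => h3 s hs, h4⟩

lemma order_zero {D D' : ℕ} (h : IsGood D) (h' : IsGood D') {d d' : ℤ}
    (hd : (d = D ∧ d' = D') ∨ (d = -(D : ℤ) ∧ d' = -(D' : ℤ))) {k : ℕ} (hk : Weight d k) :
    OrderZero k d d' := by
  intro z hz
  have h0 : 0 < D := Nat.pos_of_ne_zero h.squarefree.ne_zero
  have h0' : 0 < D' := Nat.pos_of_ne_zero h'.squarefree.ne_zero
  have hk' : Weight d' k := by
    obtain ⟨h1, h2⟩ := hk
    refine ⟨h1, ?_⟩
    rcases h2 with ⟨h3, h4⟩ | ⟨h3, h4⟩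
    · exact Or.inl ⟨by omega, h4⟩
    · exact Or.inr ⟨by omega, h4⟩
  obtain ⟨F, a1, a2, a3⟩ := zero_one (fm_of h) (d := d) (by tauto) hk hz
  obtain ⟨F', b1, b2, b3⟩ := zero_one (fm_of h') (d := d') (by tauto) hk' hz
  exact ⟨fun s => F s * F' s, ⟨a1.mul b1, fun s hs => ⟨F s, F' s, a2 s hs, b2 s hs, rfl⟩⟩,
    mul_ne_zero a3 b3⟩

lemma selmer_zero {D D' : ℕ} (h : IsGood D) (h' : IsGood D') {d d' : ℤ}
    (hd : (d = D ∧ d' = D') ∨ (d = -(D : ℤ) ∧ d' = -(D' : ℤ))) : SelmerZero d d' := by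
  intro w hw
  have hn : d.natAbs = D := by rcases hd with ⟨rfl, -⟩ | ⟨rfl, -⟩ <;> simp
  have hdd : d * d' = ((D * D' : ℕ) : ℤ) := by
    rcases hd with ⟨rfl, rfl⟩ | ⟨rfl, rfl⟩ <;> push_cast <;> ring
  have hG : Gp d.natAbs (fun _ : Fin 1 => D * D') := by
    intro T
    rcases Finset.eq_empty_or_nonempty T with hT | hT
    · refine ⟨D, 1, one_ne_zero, fm_of h, ?_⟩
      rw [hT, Finset.prod_empty, hn]
      ring
    · refine ⟨D', D, h.squarefree.ne_zero, fm_of h', ?_⟩
      have hT' : T = {0} := by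
        obtain ⟨x, hx⟩ := hT
        ext y
        rw [Finset.mem_singleton]
        have e1 : y = 0 := Subsingleton.elim _ _
        have e2 : x = 0 := Subsingleton.elim _ _
        constructor
        · intro _
          exact e1
        · intro _
          rw [e1, ← e2]
          exact hx
      rw [hT', Finset.prod_singleton, hn]
      ring
  obtain ⟨hM0, -⟩ := gp_ne hG
  have hd0 : d ≠ 0 := Int.natAbs_ne_zero.1 hM0
  obtain ⟨κ, κ', ht, r, I, kd⟩ := exists_tateO hw (twZ_ne hd0)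
  refine ⟨isoZ hw d, elliptic (twZ_ne hd0) hw, κ, κ', ht, fun s hs c₀ hc₀ k hk => ?_⟩
  have h7 : (2 * w - 1) ^ 2 = -7 := by linear_combination 4 * hw
  have h70 : 2 * w - 1 ≠ 0 := by
    intro h0
    rw [h0] at h7
    norm_num at h7
  have ht2 : (s / (2 * w - 1)) ^ 2 = ((D * D' : ℕ) : QBar) := by
    rw [div_pow, h7, hs]
    have e : ((-7 * d * d' : ℤ) : QBar) = -7 * ((D * D' : ℕ) : QBar) := by
      rw [show -7 * d * d' = -7 * (d * d') by ring, hdd]
      push_cast
      ring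
    rw [e, mul_div_assoc, div_eq_mul_inv]
    have : (-7 : QBar) ≠ 0 := by norm_num
    field_simp
  have h1 := (selZ hw hG kd (s := fun _ : Fin 1 => s / (2 * w - 1)) (fun _ => ht2) k hk).1
  have e : GalL w (fun _ : Fin 1 => s / (2 * w - 1)) = GalL w (fun _ : Fin 1 => s) := by
    ext σ
    rw [mem_GalL, mem_GalL]
    have hσ : σ (2 * w - 1) = 2 * w - 1 := by
      rw [map_sub, map_mul, map_ofNat, map_one]
      have : σ w = w := σ.commutes ⟨w, IntermediateField.mem_adjoin_simple_self ℚ w⟩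
      rw [this]
    constructor
    · intro h2 i
      have h3 := h2 i
      rw [map_div₀, hσ, div_left_inj' h70] at h3
      exact h3
    · intro h2 i
      rw [map_div₀, hσ, h2 i]
  rw [e] at h1
  exact Pool.Agent.F843.zero_ofZ hw hc₀ (d := fun _ : Fin 1 => -7 * d * d') (fun _ => hs) h1

lemma main_of {D D' : ℕ} (h : IsGood D) (h' : IsGood D') :
    BlochKato D D' ∧ BlochKato (-D) (-D') :=
  ⟨⟨fun _ hk => order_zero h h' (Or.inl ⟨rfl, rfl⟩) hk, selmer_zero h h' (Or.inl ⟨rfl, rfl⟩)⟩,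
    ⟨fun _ hk => order_zero h h' (Or.inr ⟨rfl, rfl⟩) hk, selmer_zero h h' (Or.inr ⟨rfl, rfl⟩)⟩⟩

lemma cls_of {m : ℕ} {R : Finset ℕ} (h : Classes m R) : Cls m R :=
  ⟨h.pos, h.dvd, h.nonempty, fun a ha => by
    obtain ⟨h1, h2, h3⟩ := h.mem a ha
    exact ⟨h1, h2, by omega⟩⟩

lemma good_iff {m : ℕ} {R : Finset ℕ} (h : Classes m R) {D : ℕ} (hsq : Squarefree D)
    (hD : D % m ∈ R) : Pool.Agent.N818.TC.Rz (Pool.Agent.N818.TC.A D) (Pool.Agent.N818.TC.B D) ↔
      IsGood D := by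
  obtain ⟨h4, h7⟩ := cls_mod (cls_of h) hD
  have h8 : D % 8 = 1 := by
    obtain ⟨h1, h2, h3⟩ := h.mem _ hD
    obtain ⟨q, hq⟩ := h.dvd
    have e : D % m % 8 = D % 8 := Nat.mod_mod_of_dvd D (by rw [hq]; exact ⟨7 * q, by ring⟩)
    omega
  rw [← rz_long h4]
  exact ⟨fun h => ⟨hsq, h8, h7, h⟩, fun h => h.rank⟩

lemma dens {m : ℕ} {R : Finset ℕ} (h : Classes m R) : HasDensity m R IsGood (c / 2) := by
  refine (rz_R dm_den (cls_of h)).congr fun X => ?_
  have e1 : cnt m R (fun D => Pool.Agent.N818.TC.Rz (Pool.Agent.N818.TC.A D)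
      (Pool.Agent.N818.TC.B D)) X = num m R IsGood X :=
    cnt_congr (fun D h1 h2 => good_iff h h1 h2) X
  have e2 : cnt m R (fun _ => True) X = num m R (fun _ => True) X := rfl
  rw [e1, e2]

lemma c_pos : 0 < c := by
  have h := Pool.Agent.Y948.CQ.t_C2.2.2.2.1
  have h2 : (0.4194 : ℝ) < c := h
  linarith

/-- the number of the numbers of the classes goes to infinity -/
lemma num_top {m : ℕ} {R : Finset ℕ} (h : Classes m R) :
    Tendsto (fun X : ℕ => (num m R (fun _ => True) X : ℝ)) atTop atTop := by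
  obtain ⟨a, ha⟩ := h.nonempty
  obtain ⟨h1, h2, h3⟩ := h.mem a ha
  have hmono : Monotone fun X : ℕ => (num m R (fun _ => True) X : ℝ) := by
    intro X Y hXY
    refine Nat.cast_le.2 ?_
    unfold num
    refine Finset.card_le_card fun D hD => ?_
    simp only [Finset.mem_filter, Finset.mem_Icc] at hD ⊢
    obtain ⟨h5, h6⟩ := hD
    exact ⟨⟨h5.1, h5.2.trans hXY⟩, h6⟩
  refine tendsto_atTop_atTop_of_monotone hmono fun b => ?_
  -- infinitely many primes in the class
  have hu : IsUnit ((a : ℕ) : ZMod m) := (ZMod.isUnit_iff_coprime a m).2 h2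
  have hm : NeZero m := ⟨h.pos.ne'⟩
  have hinf : {p : ℕ | p.Prime ∧ (p : ZMod m) = a}.Infinite :=
    Nat.infinite_setOfPred_prime_and_eq_mod hu
  obtain ⟨S, hS, hc⟩ := hinf.exists_subset_card_eq (⌈b⌉₊)
  obtain ⟨X, hX⟩ : ∃ X : ℕ, ∀ p ∈ S, p ≤ X := ⟨S.sup id, fun p hp => Finset.le_sup (f := id) hp⟩
  refine ⟨X, (Nat.le_ceil b).trans ?_⟩
  rw [← hc]
  refine Nat.cast_le.2 ?_
  unfold num
  refine Finset.card_le_card fun p hp => ?_
  obtain ⟨h5, h6⟩ := hS hp
  simp only [Finset.mem_filter, Finset.mem_Icc]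
  refine ⟨⟨h5.one_lt.le, hX p hp⟩, ⟨h5.squarefree, ?_⟩, trivial⟩
  have h7 := (ZMod.natCast_eq_natCast_iff' p a m).1 h6
  rw [h7, Nat.mod_eq_of_lt h1]
  exact ha

lemma pairs_of {m : ℕ} {R : Finset ℕ} (h : Classes m R) {Q : ℕ → ℕ → Prop}
    (hQ : ∀ D D', IsGood D → IsGood D' → D ≠ D' → Q D D') {x : ℝ} (hx : x < (c / 2) ^ 2) :
    ∀ᶠ X : ℕ in atTop, x < pairs m R Q X := by
  have h1 := dens h
  have h2 := num_top h
  -- the proportion of the pairs without the diagonal
  have h3 : Tendsto (fun X : ℕ => ((num m R IsGood X : ℝ) / (num m R (fun _ => True) X : ℝ)) ^ 2 -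
      ((num m R IsGood X : ℝ) / (num m R (fun _ => True) X : ℝ)) *
        (num m R (fun _ => True) X : ℝ)⁻¹) atTop (nhds ((c / 2) ^ 2 - (c / 2) * 0)) :=
    (h1.pow 2).sub (h1.mul (tendsto_inv_atTop_zero.comp h2))
  rw [mul_zero, sub_zero] at h3
  filter_upwards [h3.eventually_const_lt hx, h2.eventually_gt_atTop 0] with X hX hX0
  refine hX.trans_le ?_
  set G := (Finset.Icc 1 X).filter fun D => (Squarefree D ∧ D % m ∈ R) ∧ IsGood D with hG
  have hcard : (G.card : ℝ) = num m R IsGood X := rfl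
  have hoff : (G.card * G.card - G.card : ℕ) ≤ ((Finset.Icc 1 X ×ˢ Finset.Icc 1 X).filter
      fun v => ((Squarefree v.1 ∧ v.1 % m ∈ R) ∧
        (Squarefree v.2 ∧ v.2 % m ∈ R)) ∧ Q v.1 v.2).card := by
    rw [← Finset.offDiag_card]
    refine Finset.card_le_card fun v hv => ?_
    obtain ⟨h4, h5, h6⟩ := Finset.mem_offDiag.1 hv
    obtain ⟨a1, a2, a3⟩ := Finset.mem_filter.1 h4
    obtain ⟨b1, b2, b3⟩ := Finset.mem_filter.1 h5
    exact Finset.mem_filter.2 ⟨Finset.mem_product.2 ⟨a1, b1⟩, ⟨a2, b2⟩, hQ _ _ a3 b3 h6⟩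
  have hle : G.card ≤ G.card * G.card := Nat.le_mul_self _
  have h8 : (G.card : ℝ) * G.card - G.card ≤ (((Finset.Icc 1 X ×ˢ Finset.Icc 1 X).filter
      fun v => ((Squarefree v.1 ∧ v.1 % m ∈ R) ∧
        (Squarefree v.2 ∧ v.2 % m ∈ R)) ∧ Q v.1 v.2).card : ℝ) := by
    have := (Nat.cast_le (α := ℝ)).2 hoff
    rw [Nat.cast_sub hle] at this
    push_cast at this
    exact this
  unfold pairs
  rw [le_div_iff₀ (by positivity), ← hcard]
  refine le_trans (le_of_eq ?_) h8
  field_simp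

end proof

/-- **The conjecture of Bloch and Kato for `p = 2` and the base changes to the imaginary quadratic
fields `ℚ(√(-7 D D'))` of the newforms `f_k ⊗ χ_D` (`k` odd) and `f_k ⊗ χ_{-D}` (`k` even), for all
good `D ≠ D'`, with both sides `0`, and the natural density of the good `D`.** -/
theorem result :
    (∀ D D' : ℕ, IsGood D → IsGood D' → D ≠ D' → BlochKato D D' ∧ BlochKato (-D) (-D')) ∧
    (∀ (m : ℕ) (R : Finset ℕ), Classes m R → HasDensity m R IsGood (c / 2) ∧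
      ∀ x : ℝ, x < (c / 2) ^ 2 → ∀ᶠ X : ℕ in atTop, x < pairs m R (fun D D' => D ≠ D' ∧
        BlochKato D D' ∧ BlochKato (-D) (-D')) X) ∧
    (∀ D : ℕ, Squarefree D → D % 8 = 1 → ¬ 7 ∣ D → (IsGood D ↔ ¬ Factorisation D)) ∧
    0.4194 < c ∧ c < 0.4195 := by
  refine ⟨fun D D' h h' _ => main_of h h', fun m R h => ⟨dens h, fun x hx => ?_⟩,
    fun D h1 h2 h3 => ?_, Pool.Agent.Y948.CQ.t_C2.2.2.2.1, Pool.Agent.Y948.CQ.t_C2.2.2.2.2⟩
  · exact pairs_of h (fun D D' h h' hne => ⟨hne, main_of h h'⟩) hx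
  · have h4 := Pool.Agent.N843.Z.rank_fac h1 (by omega) h3
    unfold Pool.Agent.N818.TD.Fac at h4
    rw [show (((D : ℤ) : Pool.Agent.N818.TD.OO)) = ((D : ℕ) : OK) by push_cast; rfl] at h4
    exact ⟨fun h => h4.1 h.rank, fun h => ⟨h1, h2, h3, h4.2 h⟩⟩

end Pool.Agent.Results.MP_7c08ba_nt.BaseChangeAllWeights
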