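import Pool.Agent.N166.PD.Main

/-!
# The Bloch–Kato order formula for polarised representations of weight `-1`: relations between the
defects over extension fields with cyclic or hyperelementary Galois action and large local degrees

`K` is a number field (on the page: `K = F` imaginary quadratic), `L` a finite Galois extension of `K` and
`S` a finite set of primes of `K`.  A regular algebraic cuspidal automorphic representation `π` of
`GL_N (𝔸_K)` of motivic weight `-1` enters through its Satake parameters `α v`, `N` complex numbers of
absolute value `N v ^ (-1 / 2)` for almost all primes `v` (purity), and, for a prime `p` and a field `k`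
of characteristic zero (on the page the algebraic closure of `ℚ_p`), through the `k`-linear
representations `ρ₁` and `ρ₀` of the absolute Galois group of `K` on the unions over the finite extensions
`E` of `K` of `H¹_f(E, ρ_π)` and `H⁰(E, ρ_π)`.  The vectors of `ρ₁` fixed by the absolute Galois group of
`E` are `H¹_f(E, ρ_π)` (inflation and restriction, coefficients of characteristic zero), and the function
`L(π_E, s)` over `E` has the Frobenius eigenvalues of `α` over `E` at almost all primes (base change on
the Galois side).  For cuspidal `π` the `H⁰` vanishes by purity, and `L(π, s)` is entire.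

The proof.  There are relations `∑ e_j [F_j] = c [K]` between the permutation characters of finite
extensions `F_j` of `K` with the properties below, `c = 1` in the case of hyperelementary groups
(`Pool.Agent.N19.BR`, helper19).  They give `L(π, s) ^ c = R(s) ∏ L(π_{F_j}, s) ^ e_j`, with `R` from the
Euler factors at finitely many primes, and the relation `∑ e_j dim V^{G_{F_j}} = c dim V^{G_K}` for
`V = ρ₁` and `V = ρ₀`.

The definitions are in `Pool.Agent.N166.PD.Main` (`DefectOverBase`) and `Pool.Agent.N19.BR.KDefs`, `ADefs`,
`BBDefs`, `MDefs`, `TDefs` and `Defs`.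
-/

set_option autoImplicit false

namespace Pool.Agent.Results.MP_7c08ba_nt.DefectRelations

open NumberField IsDedekindDomain Pool.Agent.N19.BR.TDef Pool.Agent.N19.BR.MDef
open Pool.Agent.N166.PD (DefectOverBase)

/-- **The defects in the Bloch–Kato formula.**  Let `L/K` be a finite Galois extension of number fields,
`S` a finite set of primes of `K` and `m ≥ 1`.

(A) There is a list of number fields `F_j ⊇ K`, integers `e_j` and an integer `c ≥ 1`, such that for every
`j` the Galois group of `L F_j / F_j` is CYCLIC, `m` divides the local degrees of `F_j / K` at the primes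
above `S`, `F_j` has at most two real places, and such that the following holds for ALL families `α` of
weight `-1`, all fields `k` of characteristic zero, all `k`-linear representations `ρ₁`, `ρ₀` of the
absolute Galois group of `K`, and all connected `U` that contain `0` and the half-plane `Re s > 1/2`: if
over all `F_j` the function `L(π_{F_j}, s)` has a meromorphic continuation to `U` and
`ord_{s=0} L(π_{F_j}, s) = dim H¹_f - dim H⁰ + δ_j`, then `ord_{s=0} L(π, s) = dim H¹_f - dim H⁰ + δ` over
`K`, with `c δ = ∑ e_j δ_j`, for every meromorphic continuation of `L(π, s)` to `U`.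

(B) The same with `c = 1`, and with the meromorphic continuation of `L(π, s)` in the conclusion, for
a list of fields such that for some prime number `q` the group of `L F_j / F_j` is `q`-hyperelementary, the
divisors of `m` prime to `q` divide the local degrees of `F_j / K` at the primes above `S`, and `F_j` has
at most two real places if `q ≠ 2`.

In particular the formula over the `F_j` (`δ_j = 0`) implies the formula over `K`. -/
theorem result (K : Type) [Field K] [NumberField K] (L : Type) [Field L] [NumberField L]
    [Algebra K L] [IsGalois K L] (S : Set (HeightOneSpectrum (𝓞 K))) (hS : S.Finite) (m : ℕ)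
    (hm : m ≠ 0) :
    (∃ Y : FieldList K, Special L S m Y ∧
      ∀ (N : ℕ) (α : HeightOneSpectrum (𝓞 K) → Fin N → ℂ), Pure (-1) α →
      ∀ (k : Type) [Field k] [CharZero k] (V₁ V₀ : Type) [AddCommGroup V₁] [Module k V₁]
        [AddCommGroup V₀] [Module k V₀]
        (ρ₁ : Representation k Gal(AlgebraicClosure K/K) V₁)
        (ρ₀ : Representation k Gal(AlgebraicClosure K/K) V₀) (U : Set ℂ), Region (-1) U →
        (0 : ℂ) ∈ U → ∀ δ : Fin Y.r → ℤ, (∀ j, BlochKato ρ₁ ρ₀ α U (δ j) (Y.F j)) →
          DefectOverBase ρ₁ ρ₀ α U Y.c (∑ j, Y.e j * δ j)) ∧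
    ∃ Y : FieldList K, HyperelementaryList L S m Y ∧
      ∀ (N : ℕ) (α : HeightOneSpectrum (𝓞 K) → Fin N → ℂ), Pure (-1) α →
      ∀ (k : Type) [Field k] [CharZero k] (V₁ V₀ : Type) [AddCommGroup V₁] [Module k V₁]
        [AddCommGroup V₀] [Module k V₀]
        (ρ₁ : Representation k Gal(AlgebraicClosure K/K) V₁)
        (ρ₀ : Representation k Gal(AlgebraicClosure K/K) V₀) (U : Set ℂ), Region (-1) U →
        (0 : ℂ) ∈ U → ∀ δ : Fin Y.r → ℤ, (∀ j, BlochKato ρ₁ ρ₀ α U (δ j) (Y.F j)) →
          BlochKatoOverBase ρ₁ ρ₀ α U (∑ j, Y.e j * δ j) := by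
  constructor
  · obtain ⟨Y, hY, hrel⟩ := Pool.Agent.N166.PD.cyclic_list' K L hS hm
    exact ⟨Y, hY, fun N α hα k _ _ V₁ V₀ _ _ _ _ ρ₁ ρ₀ U hU h0 δ hF =>
      Pool.Agent.N166.PD.defect_of_rel ρ₁ ρ₀ Y.c_ne_zero hrel hα hU h0 hF⟩
  · obtain ⟨Y, hY, hrel⟩ := Pool.Agent.N19.BR.hyper_list K L S hS m hm
    exact ⟨Y, hY, fun N α hα k _ _ V₁ V₀ _ _ _ _ ρ₁ ρ₀ U hU h0 δ hF =>
      Pool.Agent.N19.BR.blochKato_of_rel ρ₁ ρ₀ hrel hα hU h0 hF⟩

end Pool.Agent.Results.MP_7c08ba_nt.DefectRelations
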