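import Mathlib
import Pool.Agent.N843.CK.Nf
import Pool.Agent.Results.MP_ec4e4b_nt.AllWeightsOverK
import Pool.Agent.Results.MP_6e2fc3_nt.CMFormsAllWeights

/-!
# The conjecture of Bloch and Kato for conjugate self-dual representations of `GL_2` over the
# imaginary quadratic fields `ℚ(√(-7 N(D)))`, `D ∈ ℤ[(1 + √-7) / 2]`: all weights, both sides, exact
# natural density

`K = ℚ(√-7)` with the ring of integers `ℤ[ω]`, `ω² = ω - 2`. For `D` in `ℤ[ω]` let `E_D` be the twist by
`D` of `X_0(49)` over `K` and `ψ_D` its Hecke character. Let `D` be squarefree and not a rational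
integer. Then `N(D)` is not a square, `F = ℚ(√(-7 N(D)))` is an imaginary quadratic field different from
`K`, and the automorphic induction `f` of `ψ_D^{2k-1}` to `ℚ` is a newform of weight `2k` with the
nontrivial nebentypus of `ℚ(√N(D))`. The base change `π` of `f` to `F` is the automorphic induction
to `F` of the character `ψ_D^{2k-1} ∘ N` of `KF`; it is cuspidal and regular algebraic, and
`π^∨ = π^c |·|^(-1)` after the normalization: `π^c = π`, and `π^∨` is up to the normalization the twist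
of `π` by the quadratic character of `KF/F` (which is the one of `ℚ(√N(D))`, restricted to `F`), that is
`π`. As `N(D) = D D̄` is a square in `KF`, the `L`-function of `π` is the product of the
`L`-functions over `K` of `ψ_D^{2k-1}` and of `ψ_D̄^{2k-1}`, where `D̄` is the conjugate of `D`. The
`2`-adic realization `V` of `π` is the restriction to `Gal(ℚ̄/F)` of the representation of `Gal(ℚ̄/ℚ)`
induced from the character `κ^k κ'^(1-k)` of `Gal(ℚ̄/K)`, where `κ`, `κ'` are the characters by which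
`Gal(ℚ̄/K)` acts on the `2`-adic Tate module of `E_D`.

Let `D` be good if it is squarefree, `D ≡ 1 mod 8`, `√-7 ∤ D`, `D` is not a rational integer, `E_D(K)` is
finite and `Ш(E_D/K)` has no element of order two. Theorem: for **all** good `D` and **all** `k > 0`, for
the `π` which belongs to `D` if `k` is odd and to `-D` if `k` is even, the `L`-function of `π` is not zero
at the centre, **and** `H¹_f(F, V) = 0`: the conjecture of Bloch and Kato is true for `π` and `p = 2`, and
both sides are `0`. The good `D` have the natural density **exactly** `c2 = ∏_{i ≥ 1} (1 - 2^(-i)) = 0.288…`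
among all squarefree `D ≡ 1 mod 8` in `ℤ[ω]` which are prime to `√-7`, ordered by the norm.

The `π` treated in `BaseChangeAllWeights` are those with `D` in `ℤ` (and another field). The
normalization of the `L`-functions is that of the problem with `s` replaced by `s - 1`: the centre is
`s = 1`.
-/

set_option autoImplicit false

namespace Pool.Agent.Results.MP_7c08ba_nt.NormFieldsBlochKato

open Pool.Agent.Results.MP_787500_nt.AllWeightsMultiquadraticX49 (QBar OK emb ED Chr TateModule chi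
  K gen Iso)
open Pool.Agent.Results.MP_6e2fc3_nt.CMFormsAllWeights (GQ Zero)
open Pool.Agent.Results.MP_ec4e4b_nt.AllWeightsOverK (twist model RankZeroShaTwo tw norm Adm Weight
  IsHecke IsHeckeOf Factorisation count HasDensity c2)
open WeierstrassCurve IsDedekindDomain Filter
open scoped Classical

/-- `D` is in the family (squarefree, `1` modulo `8`, prime to `√-7`) and not a rational integer,
`E_D(K)` is finite and `Ш(E_D/K)` has no element of order two. -/
structure IsGood (w : QBar) (D : OK) : Prop where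
  adm : Adm D
  irrational : D.im ≠ 0
  rank : RankZeroShaTwo (twist (emb (gen w) D))

/-- The conjugate `a + b - b ω` of `a + b ω`. -/
def conj (D : OK) : OK := ⟨D.re + D.im, -D.im⟩

/-! ### The two sides -/

/-- The two equations of `E_M` are over `K` isomorphic to the elliptic curve `ED w (tw M)`, the absolute
Galois group of `K` acts on its `2`-adic Tate module by `κ`, `κ'`, and for `F = ℚ(√(-7 N))` and all the
`k` in `Weight e` the group `H¹_f(F, V)` is zero for the restriction `V` to the absolute Galois group of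
`F` of the representation induced from `κ^k κ'^(1-k)` (see `Zero`). -/
def SelmerZero (w : QBar) (e : ℤ) (M : OK) (N : ℤ) : Prop :=
  Iso (twist (emb (gen w) M)) (ED w (tw M)) ∧ Iso (model (emb (gen w) M)) (ED w (tw M)) ∧
    (ED w (tw M)).IsElliptic ∧
    ∃ κ κ' : Chr w, TateModule (tw M) κ κ' ∧
      ∀ s : QBar, s ^ 2 = ((-7 * N : ℤ) : QBar) → ∀ c₀ : GQ, c₀ w = 1 - w →
        ∀ k : ℤ, Weight e k → Zero (fun _ : Fin 1 => s) (chi κ κ' k) c₀

/-- `L` is an entire function and is, for `Re s > 3/2`, the product over the primes `P` of `K` of the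
Euler factors at `P` of the `L`-functions `L_k` of `ψ` and of `ψ'`. -/
def IsLFunction (ψ ψ' : Ideal OK → ℂ) (k : ℤ) (L : ℂ → ℂ) : Prop :=
  Differentiable ℂ L ∧ ∀ s : ℂ, 3 / 2 < s.re → HasProd (fun P : HeightOneSpectrum OK =>
    (1 - ψ P.asIdeal ^ k * (starRingEnd ℂ) (ψ P.asIdeal) ^ (1 - k) *
      (Nat.card (OK ⧸ P.asIdeal) : ℂ) ^ (-s))⁻¹ *
    (1 - ψ' P.asIdeal ^ k * (starRingEnd ℂ) (ψ' P.asIdeal) ^ (1 - k) *
      (Nat.card (OK ⧸ P.asIdeal) : ℂ) ^ (-s))⁻¹) (L s)

/-- The `L`-functions of the `π` over `ℚ(√(-7 N(D)))` which belong to `e D`, of all the weights `2k`, `k`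
in `Weight e`, are entire and not zero at the centre `s = 1`; here `ψ` and `ψ'` are the Hecke characters
of the twists of `X_0(49)` by `e D` and by `e D̄`, and the complex numbers contain `K` by the embedding
`ω ↦ z`. -/
def OrderZero (e : ℤ) (D : OK) : Prop := ∀ z : ℂ, z ^ 2 = z - 2 → ∃ ψ ψ' : Ideal OK → ℂ,
  IsHecke e D z ψ ∧ IsHeckeOf ((e : OK) * D) ψ ∧
  IsHecke e (conj D) z ψ' ∧ IsHeckeOf ((e : OK) * conj D) ψ' ∧
  ∀ k : ℤ, Weight e k → ∃ L : ℂ → ℂ, IsLFunction ψ ψ' k L ∧ L 1 ≠ 0

/-- The conjecture of Bloch and Kato for `p = 2`, both sides being `0`, for the `π` over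
`F = ℚ(√(-7 N(D)))` which belong to `e D`, of all the weights `2k`, `k` in `Weight e` (`k > 0` odd if
`e = 1` and even if `e = -1`). -/
def BlochKato (w : QBar) (e : ℤ) (D : OK) : Prop :=
  SelmerZero w e ((e : OK) * D) (norm D) ∧ OrderZero e D

/-! ### The proof -/

section proof

open Pool.Agent.N843.K (FO C8 gpK_norm)
open Pool.Agent.Results.MP_ec4e4b_nt.AllWeightsOverK (formula_of adm_iff central_of)
open Pool.Agent.Results.MP_787500_nt.AllWeightsMultiquadraticX49 (GalL)
open Pool.Agent.Results.MP_6e2fc3_nt.CMFormsAllWeights (mem_GalL)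

lemma good_iff {w : QBar} (hw : w ^ 2 = w - 2) {D : OK} :
    IsGood w D ↔ FO D ∧ D.im ≠ 0 := by
  rw [← Pool.Agent.Results.MP_ec4e4b_nt.AllWeightsOverK.good_iff hw]
  exact ⟨fun h => ⟨⟨h.adm, h.rank⟩, h.irrational⟩, fun h => ⟨h.1.adm, h.2, h.1.rank⟩⟩

lemma order_of {D : OK} (h : FO D) {e : ℤ} (he : e = 1 ∨ e = -1) : OrderZero e D := by
  intro z hz
  obtain ⟨ψ, h1, h2, h3⟩ := central_of h he z hz
  obtain ⟨ψ', h1', h2', h3'⟩ := central_of h.conj he z hz
  refine ⟨ψ, ψ', h1, h2, h1', h2', fun k hk => ?_⟩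
  obtain ⟨L, a1, a2, a3⟩ := (h3 k hk).1
  obtain ⟨L', b1, b2, b3⟩ := (h3' k hk).1
  exact ⟨fun s => L s * L' s, ⟨a1.mul b1, fun s hs => (a2 s hs).mul (b2 s hs)⟩, mul_ne_zero a3 b3⟩

lemma selmer_zero {w : QBar} (hw : w ^ 2 = w - 2) {D : OK} (h : FO D) {e : ℤ}
    (he : e = 1 ∨ e = -1) : SelmerZero w e ((e : OK) * D) (norm D) := by
  obtain ⟨⟨h1, h2, h3, κ, κ', h4, h5⟩, -⟩ := formula_of hw he (gpK_norm h he)
  refine ⟨h1, h2, h3, κ, κ', h4, fun s hs c₀ hc₀ k hk => ?_⟩
  have h7 : (2 * w - 1) ^ 2 = -7 := by linear_combination 4 * hw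
  have h70 : 2 * w - 1 ≠ 0 := by
    intro h0
    rw [h0] at h7
    norm_num at h7
  have ht2 : (s / (2 * w - 1)) ^ 2 = ((norm D : ℤ) : QBar) := by
    rw [div_pow, h7, hs]
    push_cast
    have : (-7 : QBar) ≠ 0 := by norm_num
    field_simp
  have hs' : ∀ i : Fin 1, (fun _ : Fin 1 => s / (2 * w - 1)) i ^ 2 =
      emb w ((Pool.Agent.N843.K.nm D : ℤ) : OK) := fun i => by
    rw [Pool.Agent.N843.K.emb_em hw, map_intCast]
    exact ht2
  have h8 := ((h5 (fun _ : Fin 1 => s / (2 * w - 1)) hs').1 k hk).1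
  have e1 : GalL w (fun _ : Fin 1 => s / (2 * w - 1)) = GalL w (fun _ : Fin 1 => s) := by
    ext σ
    rw [mem_GalL, mem_GalL]
    have hσ : σ (2 * w - 1) = 2 * w - 1 := by
      rw [map_sub, map_mul, map_ofNat, map_one]
      have : σ w = w := σ.commutes ⟨w, IntermediateField.mem_adjoin_simple_self ℚ w⟩
      rw [this]
    constructor
    · intro h2 i
      have h3 := h2 i
      rw [map_div₀, hσ, div_left_inj' h70] at h3
      exact h3
    · intro h2 i
      rw [map_div₀, hσ, h2 i]
  rw [e1] at h8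
  exact Pool.Agent.F843.zero_ofZ hw hc₀ (d := fun _ : Fin 1 => -7 * norm D) (fun _ => hs) h8

lemma count_eq (w : QBar) (hw : w ^ 2 = w - 2) (X : ℕ) :
    count (IsGood w) X = {D : OK | Pool.Agent.N843.K.nm D ≤ X ∧ FO D ∧ D.im ≠ 0}.ncard := by
  unfold count
  congr 1
  ext D
  simp only [Set.mem_ofPred_eq]
  rw [good_iff hw]
  constructor
  · rintro ⟨h1, -, h2, h3⟩
    exact ⟨h1, h2, h3⟩
  · rintro ⟨h1, h2, h3⟩
    exact ⟨h1, adm_iff.2 ⟨h2.sq, h2.m8, h2.n7⟩, h2, h3⟩

lemma count_all (X : ℕ) : count (fun _ => True) X =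
    {D : OK | Pool.Agent.N843.K.nm D ≤ X ∧ C8 D}.ncard := by
  unfold count
  congr 1
  ext D
  simp only [Set.mem_ofPred_eq, and_true]
  rw [adm_iff]
  exact Iff.rfl

end proof

/-- **The conjecture of Bloch and Kato for `p = 2` and the conjugate self-dual representations of `GL_2`
over `ℚ(√(-7 N(D)))` of all weights, with both sides `0`, and the natural density of the good `D`.** -/
theorem result : ∀ w : QBar, w ^ 2 = w - 2 →
    (∀ (e : ℤ) (D : OK), (e = 1 ∨ e = -1) → IsGood w D → BlochKato w e D) ∧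
    (∀ D : OK, Adm D → D.im ≠ 0 → ¬ IsSquare (norm D) ∧ (IsGood w D ↔ ¬ Factorisation D)) ∧
    HasDensity (IsGood w) c2 ∧
    (∃ δ : ℝ, 0 < δ ∧ ∀ᶠ X : ℕ in atTop, δ * X ≤ (count (IsGood w) X : ℝ)) ∧
    0.288 < c2 ∧ c2 < 0.289 := by
  intro w hw
  refine ⟨fun e D he h => ?_, fun D hD hi => ⟨?_, ?_⟩, ?_, ?_, ?_, ?_⟩
  · obtain ⟨h1, -⟩ := (good_iff hw).1 h
    exact ⟨selmer_zero hw h1 he, order_of h1 he⟩
  · rintro ⟨m, hm⟩
    exact hi (Pool.Agent.N843.K.nm_sq hD.squarefree m (by rw [pow_two]; exact hm))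
  · have h1 := (Pool.Agent.Results.MP_ec4e4b_nt.AllWeightsOverK.result w hw).2.2.1 D hD
    rw [← h1]
    exact ⟨fun h => h.rank, fun h => ⟨hD, hi, h⟩⟩
  · unfold HasDensity
    simp only [count_eq w hw, count_all]
    exact Pool.Agent.N843.K.denI
  · simp only [count_eq w hw]
    exact Pool.Agent.N843.K.lowI
  · exact Pool.Agent.R426.QK.MOM.t_C2.2.2.2.1
  · exact Pool.Agent.R426.QK.MOM.t_C2.2.2.2.2

end Pool.Agent.Results.MP_7c08ba_nt.NormFieldsBlochKato
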