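import Pool.Agent.N975.AF.Mq
import Pool.Agent.N975.SD.Dens
import Pool.Agent.N975.BK.Tot
import Pool.Agent.N970.AVP.Gen
import Pool.Agent.N973.P21G.Fo
import Pool.Agent.R390.NoInv
import Pool.Agent.Y667.BKP.Main
import Pool.Agent.N809.P17.All
import Pool.Agent.N809.SN.Fin

/-!
# The Bloch-Kato conjecture for base changes to imaginary quadratic fields of forms without complex
multiplication, `n = 2`, `p = 2`

`E_{c,m}` is the quadratic twist by `m` of the curve `E_c`, where

* `E_0 : y² = x (x + 9) (x - 16)` has conductor `15`,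
* `E_1 : y² = x (x + 1) (x - 16)` has conductor `17`,
* `E_2 : y² = x (x - 9) (x + 7)` has conductor `21`;

none of them has complex multiplication. Let `F = ℚ(√D)` be an imaginary quadratic field. The base
change to `F` of the newform of `E_{c,m}` over `ℚ` is a regular algebraic cuspidal automorphic
representation `π` of `GL₂` over `F` which is conjugate self-dual of motivic weight `-1` (in the
normalisation of the problem), its `L`-function is the one of `E_{c,m}` over `F`, shifted by `1`, and its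
2-adic realisation is the rational Tate module `V_2(E_{c,m})`. Call `E_{c,m}` good over `F` if the curves
`E_{c,m}` and `E_{c,mD}` over `ℚ` have finitely many rational points and no element of order two in the
Tate-Shafarevich group.

(1) If `E_{c,m}` is good over `F`, then the Bloch-Kato Selmer group `H¹_f(F, V_2(E_{c,m}))` is zero, also
`H⁰(F, V_2(E_{c,m}))` is zero, and the `L`-series of `E_{c,m}` over `F` (the one of Mathlib, with the Euler
factors of all finite places) has a meromorphic continuation to `ℂ`, whose order at the centre is zero. So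
the Bloch-Kato conjecture holds for `π` and `p = 2`.

(2) The curve `E_c` is good over `F = ℚ(√D)` for exactly the proportion `(25/48) η`, `(19/36) κ`,
`(33/64) η` (`c = 0, 1, 2`) of all imaginary quadratic fields, in the ordering by the absolute value of
the discriminant and also by `|D|`; both `E_0` and `E_1` are good over exactly `(475/1728) η κ` of them.
Here `η = ∏_{i ≥ 1} (1 - 2^{-i}) = 0.2887…`, `κ = ∏_{i ≥ 1} (1 - 2^{-(2i-1)}) = 0.4194…`.

(3) Over an imaginary quadratic field `F` some twist `E_{1,m}`, `m ≠ 0`, of the curve of conductor `17` is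
good if and only if `17` does not split in `F`; in this case infinitely many twists `E_{1,m}`, `m`
squarefree, are good over `F`.

The theorems over `ℚ` are joint work of helpers 969, 970, 971, 972, 973, 974, 975, 99, 218, 402, 575, 637,
809, 816, 844, 855, 856, 871, 875, 877, 886, 890, 916, 919, 958, 963 and others
(`Results/MP_696deb_nt/Conductor15.lean`, `Conductor17.lean`, `Conductor21.lean`,
`ConductorsJointLaw.lean`); the passage to the fields follows helpers 856, 809 and 970.
-/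

set_option autoImplicit false

open NumberField IsDedekindDomain Filter Topology

namespace Pool.Agent.Results.MP_7c08ba_nt.TwistsNonCMImaginary

/-- the coefficients `a` of the equations `y² = x³ + a x + b` of the three curves -/
def α : Fin 3 → ℤ := ![-12987, -91, -5211]

/-- the coefficients `b` of the equations `y² = x³ + a x + b` of the three curves -/
def β : Fin 3 → ℤ := ![-263466, -330, -31050]

/-- the twist `E_{c,m} : y² = x³ + α_c m² x + β_c m³` over the field `K` -/
def E (c : Fin 3) (m : ℤ) (K : Type) [Field K] : WeierstrassCurve K :=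
  { a₁ := 0, a₂ := 0, a₃ := 0, a₄ := ((α c * m ^ 2 : ℤ) : K), a₆ := ((β c * m ^ 3 : ℤ) : K) }

/-- `E_{c,m}(ℚ)` is finite and `Ш(E_{c,m}/ℚ)` has no element of order two -/
def RankZeroShaTwo (c : Fin 3) (m : ℤ) : Prop :=
  Finite (E c m ℚ).toAffine.Point ∧ ∀ x : Pool.Agent.TH841.SH.D.Sha (E c m ℚ), 2 • x = 0 → x = 0

/-- `K = ℚ(√D)` -/
def IsQuadratic (D : ℤ) (K : Type) [Field K] [NumberField K] : Prop :=
  ∃ x : K, x ^ 2 = (D : K) ∧ IntermediateField.adjoin ℚ {x} = ⊤

/-- `E_{c,m}` is good over `ℚ(√D)` -/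
def Good (c : Fin 3) (m D : ℤ) : Prop := RankZeroShaTwo c m ∧ RankZeroShaTwo c (m * D)

/-- `F` is a meromorphic continuation to `ℂ` of the `L`-series of `W` over the number field `K` -/
def IsContinuation {K : Type} [Field K] [NumberField K] (W : WeierstrassCurve K) (F : ℂ → ℂ) :
    Prop :=
  MeromorphicOn F Set.univ ∧ ∀ s : ℂ, 2 < s.re → F s = W.LSeries s

/-- `H⁰(K, V_2 W) = 0`: the elements of `V_2 W` that are fixed by the Galois group are zero -/
def NoInvariants {K : Type} [Field K] (W : WeierstrassCurve K) : Prop :=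
  ∀ x : Pool.Agent.Y667.BKP.PSeq W, Pool.Agent.Y667.BKP.IsV 2 W x →
    (∀ (σ : Pool.Agent.TH841.SH.D.Gal K) (n : ℕ),
      Pool.Agent.TH841.SH.D.act W σ.toAlgHom (x n) = x n) → ∀ n, x n = 0

/-- the Bloch-Kato formula for `V_2 W`, `W` an elliptic curve over the number field `K`, both sides
being zero: `H¹_f(K, V_2 W) = 0`, `H⁰(K, V_2 W) = 0`, the `L`-series has a meromorphic continuation to `ℂ`,
and the order at the centre `s = 1` of every meromorphic continuation is zero -/
def BlochKatoZero {K : Type} [Field K] [NumberField K] (W : WeierstrassCurve K) : Prop :=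
  (∀ x : Pool.Agent.Y667.BKP.H1f 2 W, x = 0) ∧ NoInvariants W ∧
  (∃ F : ℂ → ℂ, IsContinuation W F) ∧
  ∀ F : ℂ → ℂ, IsContinuation W F → meromorphicOrderAt F 1 = 0

/-- the curve `E_c` is good over the quadratic field `ℚ(√D)` -/
def GoodOver (c : Fin 3) (D : ℤ) : Prop := Good c 1 D

/-- `D` is a fundamental discriminant (`1` included) -/
def Fund (D : ℤ) : Prop := (Squarefree D ∧ D % 4 = 1) ∨
  ∃ m : ℤ, D = 4 * m ∧ Squarefree m ∧ (m % 4 = 2 ∨ m % 4 = 3)

/-- the squarefree integer `d` with `ℚ(√d) = ℚ(√D)` -/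
def core (D : ℤ) : ℤ := if D % 2 = 1 then D else D / 4

open Classical in
/-- the number of the squarefree integers `D`, `|D| ≤ X`, with the property `P` -/
noncomputable def count (P : ℤ → Prop) (X : ℕ) : ℕ :=
  ((Finset.Icc (-(X : ℤ)) X).filter fun D => Squarefree D ∧ P D).card

open Classical in
/-- the number of the fundamental discriminants `D`, `|D| ≤ X`, for which `core D` has the
property `P` -/
noncomputable def countDisc (P : ℤ → Prop) (X : ℕ) : ℕ :=
  ((Finset.Icc (-(X : ℤ)) X).filter fun D => Fund D ∧ P (core D)).card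

/-- the set of the imaginary quadratic fields `ℚ(√D)` with the property `P` has the proportion `p` among
all imaginary quadratic fields, in the ordering by the absolute value of the discriminant and in the
ordering by `|D|`, `D` squarefree -/
def HasProportion (P : ℤ → Prop) (p : ℝ) : Prop :=
  Tendsto (fun X : ℕ => (countDisc (fun D => D < 0 ∧ P D) X : ℝ) /
    (countDisc (fun D => D < 0) X : ℝ)) atTop (𝓝 p) ∧
  Tendsto (fun X : ℕ => (count (fun D => D < 0 ∧ P D) X : ℝ) /
    (count (fun D => D < 0) X : ℝ)) atTop (𝓝 p)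

section proof

open Pool.Agent.N975.AF (EC Law)
open Pool.Agent.N875.X15 (Fin2)
open Pool.Agent.N916.GB (eta)
open Pool.Agent.Y703.CQ (c2)
open Pool.Agent.N919.BS (NS NF Rt17)
open Pool.Agent.N916.MO (G17)

theorem rz_iff (c : Fin 3) (m : ℤ) :
    RankZeroShaTwo c m ↔ Fin2 (EC ℚ (α c * m ^ 2) (β c * m ^ 3)) := by
  unfold RankZeroShaTwo Pool.Agent.N875.X15.Fin2
  refine and_congr Iff.rfl (forall_congr' fun x => ?_)
  rw [two_nsmul]
  exact Iff.rfl

theorem disc (c : Fin 3) : 4 * (α c) ^ 3 + 27 * (β c) ^ 2 ≠ 0 := by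
  fin_cases c <;> simp [α, β]

theorem law (c : Fin 3) : Law (α c) (β c) := by
  intro N hN h
  fin_cases c
  · exact Pool.Agent.N973.P15G.F.rank15 hN h
  · exact Pool.Agent.N809.P17.bsd_all hN h
  · exact Pool.Agent.N973.P21G.rank21 hN h

theorem neg_ind {D : ℤ} (hD : D < 0) : ∀ T : Finset (Fin 1), T.Nonempty →
    ¬ IsSquare (∏ i ∈ T, (fun _ : Fin 1 => D) i) := by
  intro T hT
  have : T = {0} := by
    ext t
    have ht : t = 0 := Subsingleton.elim _ _
    subst ht
    simp only [Finset.mem_singleton, iff_true]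
    obtain ⟨u, hu⟩ := hT
    have : u = 0 := Subsingleton.elim _ _
    rwa [this] at hu
  rw [this, Finset.prod_singleton]
  rintro ⟨a, ha⟩
  nlinarith [mul_self_nonneg a]

theorem good_all {c : Fin 3} {m D : ℤ} (hg : Good c m D) (T : Finset (Fin 1)) :
    RankZeroShaTwo c (m * ∏ i ∈ T, (fun _ : Fin 1 => D) i) := by
  rcases T.eq_empty_or_nonempty with rfl | hT
  · rw [Finset.prod_empty, mul_one]
    exact hg.1
  · have : T = {0} := by
      ext t
      have ht : t = 0 := Subsingleton.elim _ _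
      subst ht
      simp only [Finset.mem_singleton, iff_true]
      obtain ⟨u, hu⟩ := hT
      have : u = 0 := Subsingleton.elim _ _
      rwa [this] at hu
    rw [this, Finset.prod_singleton]
    exact hg.2

theorem bk (c : Fin 3) {D m : ℤ} (hD : D < 0) (hm : m ≠ 0) (hg : Good c m D) (K : Type) [Field K]
    [NumberField K] (x : K) (hx : x ^ 2 = (D : K)) (hgen : IntermediateField.adjoin ℚ {x} = ⊤) :
    Module.finrank ℚ K = 2 ∧ BlochKatoZero (E c m K) := by
  classical
  have hr : Set.range (fun _ : Fin 1 => x) = {x} := by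
    ext y
    simp
  have hgen' : IntermediateField.adjoin ℚ (Set.range (fun _ : Fin 1 => x)) = ⊤ := by
    rw [hr]
    exact hgen
  obtain ⟨h1, h2, h3, h4⟩ := Pool.Agent.N975.AF.main (disc c) (law c) hm (neg_ind hD)
    (fun T => (rz_iff c _).1 (good_all hg T)) K (fun _ => x) (fun _ => hx) hgen'
  have h2' : Finite (E c m K).toAffine.Point := h2
  have h5 : ∀ T : Finset (Fin 1), Pool.Agent.N970.AVP.RankZeroShaTwo c
      (m * ∏ i ∈ T, (fun _ : Fin 1 => D) i) := by
    intro T
    rw [Pool.Agent.N970.AVP.rz_iff]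
    have h2 := (rz_iff c _).1 (good_all hg T)
    fin_cases c <;> exact h2
  have h6 := (Pool.Agent.N970.AVP.shaK c hm (fun _ => hD.ne) h5 K (fun _ => x) (fun _ => hx)
    hgen').2
  have h7 : ∀ (k : ℕ) (y : Pool.Agent.TH841.NF.D.Sha (E c m K)), (2 ^ k : ℕ) • y = 0 →
      (2 ^ 1 : ℕ) • y = 0 := by
    fin_cases c <;> exact h6
  exact ⟨by rw [h1, pow_one], Pool.Agent.Y667.BKP.h1f_zero Nat.prime_two h2' 1 h7,
    fun y hy hfix => Pool.Agent.R390.noinv h2' y hy hfix, h3, h4⟩

/-- the curves themselves -/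
theorem one_good (c : Fin 3) : RankZeroShaTwo c 1 := by
  rw [rz_iff]
  fin_cases c
  · exact (Pool.Agent.N875.D15.fin2S_iff_sg15 squarefree_one).2 (Or.inr (Or.inl rfl))
  · refine (Pool.Agent.N809.P17.fin2_all squarefree_one).2
      ⟨Or.inl ⟨one_pos, jacobiSym.one_left 17⟩, fun h => absurd h (by norm_num), fun _ => ?_⟩
    intro x y _ _ p hp
    have e : Pool.Agent.N916.MO.Kn 1 = 1 := rfl
    rw [e, Nat.primeFactors_one] at hp
    exact absurd hp (Finset.notMem_empty p)
  · exact (Pool.Agent.N637.P21.fin2_S one_ne_zero).2 Pool.Agent.N973.P21G.fin2_one'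

theorem good_one (c : Fin 3) (D : ℤ) : GoodOver c D ↔ RankZeroShaTwo c D := by
  unfold GoodOver Good
  rw [one_mul]
  exact ⟨fun h => h.2, fun h => ⟨one_good c, h⟩⟩

theorem fund_core {D : ℤ} (h : Fund D) : Squarefree (core D) := by
  rcases h with ⟨h1, h2⟩ | ⟨m, rfl, h1, h2⟩
  · unfold core
    rw [if_pos (by omega)]
    exact h1
  · unfold core
    rw [if_neg (by omega)]
    have : 4 * m / 4 = m := by omega
    rw [this]
    exact h1

theorem count_eq (P Q : ℤ → Prop) (h : ∀ d, Squarefree d → (P d ↔ Q d)) (X : ℕ) :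
    count P X = NS Q X := by
  classical
  unfold count NS
  refine congrArg Finset.card (Finset.ext fun n => ?_)
  refine (Finset.mem_filter).trans (Iff.trans ?_ (Finset.mem_filter).symm)
  refine and_congr_right fun _ => and_congr_right fun hs => h n hs

theorem countDisc_eq (P Q : ℤ → Prop) (h : ∀ d, Squarefree d → (P d ↔ Q d)) (X : ℕ) :
    countDisc P X = NF Q X := by
  classical
  unfold countDisc NF
  refine congrArg Finset.card (Finset.ext fun n => ?_)
  refine (Finset.mem_filter).trans (Iff.trans ?_ (Finset.mem_filter).symm)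
  refine and_congr_right fun _ => and_congr_right fun hs => h _ (fund_core hs)

/-- from the densities of the criteria -/
theorem dens_of {P Q : ℤ → Prop} {p n : ℝ} (hPQ : ∀ d, Squarefree d → (P d ↔ Q d))
    (h : Pool.Agent.N975.SD.Sd Q p n) : HasProportion P n := by
  obtain ⟨h1, h2, h3, h4⟩ := h
  refine ⟨?_, ?_⟩
  · refine h4.congr fun X => ?_
    rw [countDisc_eq _ _ fun d hs => and_congr_right fun _ => hPQ d hs,
      countDisc_eq (fun D => D < 0) (fun D => D < 0 ∧ True) fun d _ => (iff_of_eq (and_true _)).symm]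
  · refine h3.congr fun X => ?_
    rw [count_eq _ _ fun d hs => and_congr_right fun _ => hPQ d hs,
      count_eq (fun D => D < 0) (fun D => D < 0 ∧ True) fun d _ => (iff_of_eq (and_true _)).symm]

theorem hasProd_eta : HasProd (fun i : ℕ => 1 - (1 / 2 : ℝ) ^ (i + 1)) eta := by
  have h : Multipliable fun i : ℕ => 1 + -((1 / 2 : ℝ) ^ (i + 1)) := by
    apply multipliable_one_add_of_summable
    have h1 : Summable fun i : ℕ => (1 / 2 : ℝ) ^ i * (1 / 2) :=
      (summable_geometric_of_lt_one (by norm_num) (by norm_num)).mul_right _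
    refine h1.congr fun i => ?_
    rw [norm_neg, Real.norm_of_nonneg (by positivity), pow_succ]
  have h3 := h.hasProd
  have e : (fun i : ℕ => 1 + -((1 / 2 : ℝ) ^ (i + 1))) = fun i : ℕ => 1 - (1 / 2 : ℝ) ^ (i + 1) := by
    funext i
    ring
  rw [e] at h3
  exact h3

theorem hasProd_c2 : HasProd (fun i : ℕ => 1 - (1 / 2 : ℝ) ^ (2 * i + 1)) c2 := by
  have h : Multipliable fun i : ℕ => 1 + -((1 / 2 : ℝ) ^ (2 * i + 1)) := by
    apply multipliable_one_add_of_summable
    have h1 : Summable fun i : ℕ => (1 / 4 : ℝ) ^ i * (1 / 2) :=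
      (summable_geometric_of_lt_one (by norm_num) (by norm_num)).mul_right _
    refine h1.congr fun i => ?_
    rw [norm_neg, Real.norm_of_nonneg (by positivity), pow_succ, pow_mul]
    norm_num
  have h3 := h.hasProd
  have e : (fun i : ℕ => 1 + -((1 / 2 : ℝ) ^ (2 * i + 1))) =
      fun i : ℕ => 1 - (1 / 2 : ℝ) ^ (2 * i + 1) := by
    funext i
    ring
  rw [e] at h3
  exact h3

theorem rz0 (d : ℤ) : GoodOver 0 d ↔ Pool.Agent.N963.JT.R15 d :=
  (good_one 0 d).trans (rz_iff 0 d)

theorem rz1 (d : ℤ) : GoodOver 1 d ↔ Pool.Agent.N963.JT.R17 d :=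
  (good_one 1 d).trans (rz_iff 1 d)

theorem rz2 (d : ℤ) : GoodOver 2 d ↔ Pool.Agent.N975.SD.R21 d :=
  (good_one 2 d).trans (rz_iff 2 d)

theorem good_two {d m : ℤ} (h1 : RankZeroShaTwo 1 m) (h2 : RankZeroShaTwo 1 (m * d)) :
    Good 1 m d := ⟨h1, h2⟩

theorem of_sg {m : ℤ} (hs : Squarefree m) (h : Pool.Agent.N875.P17.Sg m) : RankZeroShaTwo 1 m :=
  (rz_iff 1 m).2 ((Pool.Agent.N875.P17.fin2S_iff hs).2 h)

/-- the quadratic fields with good twists, by the pairs of twists of helper 809 -/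
theorem every {d : ℤ} (hs : Squarefree d) (hd : ¬ (d < 0 ∧ jacobiSym d 17 = 1)) (B : ℕ) :
    ∃ m : ℤ, Squarefree m ∧ B < m.natAbs ∧ Good 1 m d := by
  have h0 : d ≠ 0 := hs.ne_zero
  have ha : d.natAbs ≠ 0 := Int.natAbs_ne_zero.2 h0
  rcases lt_or_gt_of_ne h0 with h2 | h2
  · have h3 : jacobiSym d 17 ≠ 1 := fun h3 => hd ⟨h2, h3⟩
    obtain ⟨k, k1, kB, k3, k4⟩ := Pool.Agent.N809.SN.exists_k d.natAbs
    have hkd : ¬ (k : ℤ) ∣ d := fun hd => by
      have := Nat.le_of_dvd (Int.natAbs_pos.2 h0) (Int.natCast_dvd.1 hd)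
      omega
    obtain ⟨t, ht, hc⟩ := Pool.Agent.N809.SN.neg hs h2 h3 k1 k3 k4 hkd
    obtain ⟨l, l1, lB, l2⟩ := Pool.Agent.N809.SN.dir
      (mul_ne_zero (by norm_num) (mul_ne_zero k1.ne_zero ha)) ht B
    obtain ⟨h4, h5, h6, h7⟩ := hc l l1 l2
    refine ⟨-(l : ℤ) * -(k : ℤ), h4, ?_, good_two (of_sg h4 h6) ?_⟩
    · rw [Int.natAbs_mul, Int.natAbs_neg, Int.natAbs_neg, Int.natAbs_natCast, Int.natAbs_natCast]
      exact lt_of_lt_of_le lB (Nat.le_mul_of_pos_right _ k1.pos)
    · have e : -(l : ℤ) * -(k : ℤ) * d = -(l : ℤ) * (-(k : ℤ) * d) := by ring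
      rw [e]
      exact of_sg h5 h7
  · by_cases h3 : jacobiSym d 17 = -1
    · obtain ⟨t, ht, hc⟩ := Pool.Agent.N809.SN.pos2 hs h2 h3
      obtain ⟨l, l1, lB, l2⟩ := Pool.Agent.N809.SN.dir (mul_ne_zero (by norm_num) ha) ht B
      obtain ⟨h4, h5, h6, h7⟩ := hc l l1 l2
      refine ⟨-(l : ℤ) * 17, h4, ?_, good_two (of_sg h4 h6) ?_⟩
      · omega
      · have e : -(l : ℤ) * 17 * d = -(l : ℤ) * (17 * d) := by ring
        rw [e]
        exact of_sg h5 h7
    · obtain ⟨t, ht, hc⟩ := Pool.Agent.N809.SN.pos1 hs h2 h3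
      obtain ⟨l, l1, lB, l2⟩ := Pool.Agent.N809.SN.dir (mul_ne_zero (by norm_num) ha) ht B
      obtain ⟨h4, h5, h6, h7⟩ := hc l l1 l2
      exact ⟨-(l : ℤ), h4, by omega, good_two (of_sg h4 h6) (of_sg h5 h7)⟩

theorem rt_of {N k z : ℤ} (hN : Squarefree N) (hk : k ≠ 0) (e : z = N * k ^ 2)
    (hz : RankZeroShaTwo 1 z) : Rt17 N := by
  rw [rz_iff, e, Pool.Agent.N975.AF.fin2_scale (disc 1) hN.ne_zero hk] at hz
  exact ((Pool.Agent.N809.P17.fin2_all hN).1 hz).1

/-- the quadratic fields without good twists -/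
theorem no_twist {d m : ℤ} (hd : d < 0) (hj : jacobiSym d 17 = 1) (hm : m ≠ 0)
    (h : Good 1 m d) : False := by
  obtain ⟨h1, h2⟩ := h
  obtain ⟨N, k, hN, hk, e1⟩ := Pool.Agent.N975.AF.sqf_rep hm
  obtain ⟨N', k', hN', hk', e2⟩ := Pool.Agent.N975.AF.sqf_rep (mul_ne_zero hm hd.ne)
  refine Pool.Agent.N809.SN.obst hN hN' hd hj ?_ (rt_of hN hk e1 h1) (rt_of hN' hk' e2 h2)
  have e3 : (k * k') ^ 2 * (d * N * N') = (d * m) ^ 2 := by
    calc (k * k') ^ 2 * (d * N * N') = d * (N * k ^ 2) * (N' * k' ^ 2) := by ring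
      _ = (d * m) ^ 2 := by
        rw [← e1, ← e2]
        ring
  have e4 : (k * k') ^ 2 ∣ (d * m) ^ 2 := ⟨_, e3.symm⟩
  rw [Int.pow_dvd_pow_iff two_ne_zero] at e4
  obtain ⟨c, hc⟩ := e4
  refine ⟨c, mul_left_cancel₀ (pow_ne_zero 2 (mul_ne_zero hk hk')) ?_⟩
  rw [e3, hc]
  ring

end proof

/-- **The Bloch-Kato conjecture at `p = 2` for the base changes to imaginary quadratic fields of the
newforms of three curves without complex multiplication and of all their twists.** -/
theorem result :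
    -- all imaginary quadratic fields `K = ℚ(√D)`
    (∀ (c : Fin 3) (D m : ℤ), D < 0 → m ≠ 0 → Good c m D →
      ∀ (K : Type) [Field K] [NumberField K], IsQuadratic D K →
        NumberField.IsTotallyComplex K ∧ Module.finrank ℚ K = 2 ∧ BlochKatoZero (E c m K)) ∧
    -- the exact proportions of the imaginary quadratic fields
    (∃ η κ : ℝ, HasProd (fun i : ℕ => 1 - (1 / 2 : ℝ) ^ (i + 1)) η ∧ 0.2887 < η ∧ η < 0.2889 ∧
      HasProd (fun i : ℕ => 1 - (1 / 2 : ℝ) ^ (2 * i + 1)) κ ∧ 0.4194 < κ ∧ κ < 0.4195 ∧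
      HasProportion (GoodOver 0) (25 / 48 * η) ∧
      HasProportion (GoodOver 1) (19 / 36 * κ) ∧
      HasProportion (GoodOver 2) (33 / 64 * η) ∧
      HasProportion (fun D => GoodOver 0 D ∧ GoodOver 1 D) (475 / 1728 * (η * κ))) ∧
    -- the good twists of the curve of conductor `17` over every imaginary quadratic field
    ∀ D : ℤ, Squarefree D → D < 0 →
      ((∃ m : ℤ, m ≠ 0 ∧ Good 1 m D) ↔ jacobiSym D 17 ≠ 1) ∧
      (jacobiSym D 17 ≠ 1 → ∀ B : ℕ, ∃ m : ℤ, Squarefree m ∧ B < m.natAbs ∧ Good 1 m D) := by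
  obtain ⟨-, -, -, hb1, hb2⟩ := Pool.Agent.Y948.CQ.t_C2
  refine ⟨?_, ⟨Pool.Agent.N916.GB.eta, Pool.Agent.Y703.CQ.c2, hasProd_eta,
      Pool.Agent.N916.GB.eta_bounds.1, Pool.Agent.N916.GB.eta_bounds.2, hasProd_c2, hb1, hb2,
      dens_of (fun d _ => rz0 d) Pool.Agent.N975.SD.sd15,
      dens_of (fun d _ => rz1 d) Pool.Agent.N975.SD.sd17,
      dens_of (fun d _ => rz2 d) Pool.Agent.N975.SD.sd21,
      dens_of (fun d _ => and_congr (rz0 d) (rz1 d)) Pool.Agent.N975.SD.sdJ⟩, fun D hs hD =>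
    ⟨⟨fun ⟨m, hm, h⟩ h2 => no_twist hD h2 hm h, fun h => by
      obtain ⟨m, hm, -, hg⟩ := every hs (fun h1 => h h1.2) 0
      exact ⟨m, hm.ne_zero, hg⟩⟩, fun h B => every hs (fun h1 => h h1.2) B⟩⟩
  intro c D m hD hm hg K _ _ hK
  obtain ⟨x, hx, hgen⟩ := hK
  exact ⟨Pool.Agent.N975.BK.totComplex hD K x hx, bk c hD hm hg K x hx hgen⟩

end Pool.Agent.Results.MP_7c08ba_nt.TwistsNonCMImaginary
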